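import Mathlib

/-!
# A quasi-absolutely `2`-summing bilinear map that is not strongly multiple `2`-summing

`T : ℓ_∞(ℕ × ℕ) × ℓ_2 → ℓ_∞(ℕ × ℕ)`, `T(x,y)(k,l) = α(k,l) y_k x(k,l)` with `α(k,l) = 2^(-k)` for
`l < 4^k` and `α(k,l) = 0` otherwise.
-/

namespace Pool.Agent.Results.MP_3dc8bf_an.NotStronglyMultiple

open ENNReal

noncomputable section

variable (𝕜 : Type) [RCLike 𝕜]

section Defs

variable {E : Type} [NormedAddCommGroup E] [NormedSpace 𝕜 E]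
variable {E₁ : Type} [NormedAddCommGroup E₁] [NormedSpace 𝕜 E₁]
variable {E₂ : Type} [NormedAddCommGroup E₂] [NormedSpace 𝕜 E₂]
variable {F : Type} [NormedAddCommGroup F] [NormedSpace 𝕜 F]

/-- `φ` is a linear functional in the closed unit ball of the dual. -/
structure UnitForm (φ : E → 𝕜) : Prop where
  add : ∀ x x', φ (x + x') = φ x + φ x'
  smul : ∀ (c : 𝕜) x, φ (c • x) = c * φ x
  bound : ∀ x, ‖φ x‖ ≤ ‖x‖

/-- `T` is a bilinear map with norm at most `M`. -/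
structure Bilinear (M : ℝ) (T : E₁ → E₂ → F) : Prop where
  add_left : ∀ x x' y, T (x + x') y = T x y + T x' y
  smul_left : ∀ (c : 𝕜) x y, T (c • x) y = c • T x y
  add_right : ∀ x y y', T x (y + y') = T x y + T x y'
  smul_right : ∀ (c : 𝕜) x y, T x (c • y) = c • T x y
  bound : ∀ x y, ‖T x y‖ ≤ M * ‖x‖ * ‖y‖

/-- The weak norm `‖(x_j)‖_{w,p}`, the supremum over the closed unit ball of the dual. -/
def weakN (p : ℝ) (x : ℕ → E) : ℝ≥0∞ :=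
  ⨆ (φ : E → 𝕜) (_ : UnitForm 𝕜 φ), (∑' j, ‖φ (x j)‖ₑ ^ p) ^ (1 / p)

/-- `T` is `1`-absolutely `p`-summing (first variable). -/
def FirstSumming (p : ℝ) (T : E₁ → E₂ → F) : Prop :=
  ∃ C : NNReal, ∀ (x : ℕ → E₁) (b : E₂), weakN 𝕜 p x < ∞ →
    (∑' j, ‖T (x j) b‖ₑ ^ p) ^ (1 / p) ≤ C * weakN 𝕜 p x * ‖b‖ₑ

/-- `T` is `2`-absolutely `p`-summing (second variable). -/
def SecondSumming (p : ℝ) (T : E₁ → E₂ → F) : Prop :=
  ∃ C : NNReal, ∀ (a : E₁) (y : ℕ → E₂), weakN 𝕜 p y < ∞ →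
    (∑' j, ‖T a (y j)‖ₑ ^ p) ^ (1 / p) ≤ C * weakN 𝕜 p y * ‖a‖ₑ

/-- `T` is strongly multiple `p`-summing; the supremum is over the closed unit ball of the space
of bounded bilinear forms. -/
def StronglyMultiple (p : ℝ) (T : E₁ → E₂ → F) : Prop :=
  ∃ C : NNReal, ∀ (m : ℕ) (x : Fin m → E₁) (y : Fin m → E₂),
    (∑ i, ∑ j, ‖T (x i) (y j)‖ₑ ^ p) ^ (1 / p) ≤
      C * ⨆ (φ : E₁ → E₂ → 𝕜) (_ : Bilinear 𝕜 1 φ),
        (∑ i, ∑ j, ‖φ (x i) (y j)‖ₑ ^ p) ^ (1 / p)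

end Defs

/-- The space `ℓ_∞(ℕ × ℕ)`. -/
abbrev Linf := lp (fun _ : ℕ × ℕ => 𝕜) ∞

/-- The space `ℓ_2(ℕ)`. -/
abbrev Ltwo := lp (fun _ : ℕ => 𝕜) 2

/-- the orthonormal basis -/
def bas : ℕ → Ltwo 𝕜 := fun k => (default : HilbertBasis ℕ 𝕜 (Ltwo 𝕜)) k

lemma bas_orth : Orthonormal 𝕜 (bas 𝕜) := (default : HilbertBasis ℕ 𝕜 (Ltwo 𝕜)).orthonormal

/-- the coefficients -/
def al (q : ℕ × ℕ) : ℝ := if q.2 < 4 ^ q.1 then (2 ^ q.1)⁻¹ else 0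

lemma al_nonneg (q : ℕ × ℕ) : 0 ≤ al q := by
  unfold al; split_ifs <;> positivity

lemma al_le_one (q : ℕ × ℕ) : al q ≤ 1 := by
  unfold al
  split_ifs
  · exact inv_le_one_of_one_le₀ (one_le_pow₀ (by norm_num))
  · norm_num

lemma inner_bas_le (k : ℕ) (y : Ltwo 𝕜) : ‖inner 𝕜 (bas 𝕜 k) y‖ ≤ ‖y‖ := by
  have := norm_inner_le_norm (𝕜 := 𝕜) (bas 𝕜 k) y
  rwa [(bas_orth 𝕜).1 k, one_mul] at this

lemma T_bound (x : Linf 𝕜) (y : Ltwo 𝕜) (q : ℕ × ℕ) :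
    ‖(al q : 𝕜) * inner 𝕜 (bas 𝕜 q.1) y * x q‖ ≤ ‖x‖ * ‖y‖ := by
  rw [norm_mul, norm_mul, RCLike.norm_ofReal, abs_of_nonneg (al_nonneg q)]
  have h1 := lp.norm_apply_le_norm (p := ∞) (by simp) x q
  have h2 := inner_bas_le 𝕜 q.1 y
  have h3 := al_le_one q
  have h4 := al_nonneg q
  calc al q * ‖inner 𝕜 (bas 𝕜 q.1) y‖ * ‖x q‖ ≤ 1 * ‖y‖ * ‖x‖ := by
        gcongr
    _ = _ := by ring

/-- the value of the bilinear map -/
def Tval (x : Linf 𝕜) (y : Ltwo 𝕜) : Linf 𝕜 :=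
  ⟨fun q => (al q : 𝕜) * inner 𝕜 (bas 𝕜 q.1) y * x q, memℓp_infty ⟨‖x‖ * ‖y‖, by
    rintro _ ⟨q, rfl⟩
    exact T_bound 𝕜 x y q⟩⟩

lemma Tval_apply (x : Linf 𝕜) (y : Ltwo 𝕜) (q : ℕ × ℕ) :
    Tval 𝕜 x y q = (al q : 𝕜) * inner 𝕜 (bas 𝕜 q.1) y * x q := rfl

/-- The bilinear map. -/
def T : Linf 𝕜 → Ltwo 𝕜 → Linf 𝕜 := Tval 𝕜

lemma T_apply (x : Linf 𝕜) (y : Ltwo 𝕜) (q : ℕ × ℕ) :
    T 𝕜 x y q = (al q : 𝕜) * inner 𝕜 (bas 𝕜 q.1) y * x q := rfl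

lemma T_bilinear : Bilinear 𝕜 1 (T 𝕜) where
  add_left x x' y := by
    ext q
    simp only [lp.coeFn_add, Pi.add_apply, T_apply]
    ring
  smul_left c x y := by
    ext q
    simp only [lp.coeFn_smul, Pi.smul_apply, T_apply, smul_eq_mul]
    ring
  add_right x y y' := by
    ext q
    simp only [lp.coeFn_add, Pi.add_apply, T_apply, inner_add_right]
    ring
  smul_right c x y := by
    ext q
    simp only [lp.coeFn_smul, Pi.smul_apply, T_apply, inner_smul_right, smul_eq_mul]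
    ring
  bound x y := by
    rw [one_mul]
    exact lp.norm_le_of_forall_le (by positivity) (fun q => T_bound 𝕜 x y q)

lemma enorm_T_sq (x : Linf 𝕜) (y : Ltwo 𝕜) (S : ℝ≥0∞)
    (hS : ∀ q, ‖T 𝕜 x y q‖ₑ ^ (2 : ℝ) ≤ S) : ‖T 𝕜 x y‖ₑ ^ (2 : ℝ) ≤ S := by
  by_cases hfin : S = ∞
  · rw [hfin]; exact le_top
  have h1 : ∀ q, ‖T 𝕜 x y q‖ ≤ (S ^ (1 / 2 : ℝ)).toReal := by
    intro q
    have h2 : ‖T 𝕜 x y q‖ₑ ≤ S ^ (1 / 2 : ℝ) := by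
      have := ENNReal.rpow_le_rpow (hS q) (by norm_num : (0 : ℝ) ≤ 1 / 2)
      rw [← ENNReal.rpow_mul] at this
      norm_num at this ⊢
      exact this
    have h3 : (‖T 𝕜 x y q‖ₑ).toReal ≤ (S ^ (1 / 2 : ℝ)).toReal :=
      ENNReal.toReal_mono (ENNReal.rpow_ne_top_of_nonneg (by norm_num) hfin) h2
    simpa using h3
  have h2 : ‖T 𝕜 x y‖ ≤ (S ^ (1 / 2 : ℝ)).toReal :=
    lp.norm_le_of_forall_le ENNReal.toReal_nonneg h1
  have h3 : ‖T 𝕜 x y‖ₑ ≤ S ^ (1 / 2 : ℝ) := by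
    rw [← ofReal_norm]
    exact ENNReal.ofReal_le_of_le_toReal h2
  calc ‖T 𝕜 x y‖ₑ ^ (2 : ℝ) ≤ (S ^ (1 / 2 : ℝ)) ^ (2 : ℝ) := ENNReal.rpow_le_rpow h3 (by norm_num)
    _ = S := by rw [← ENNReal.rpow_mul]; norm_num

lemma enorm_al (q : ℕ × ℕ) : ‖(al q : 𝕜)‖ₑ = ENNReal.ofReal (al q) := by
  rw [← ofReal_norm, RCLike.norm_ofReal, abs_of_nonneg (al_nonneg q)]

lemma sum_al (k : ℕ) : ∑' l, ENNReal.ofReal (al (k, l)) ^ (2 : ℝ) = 1 := by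
  rw [tsum_eq_sum (s := Finset.range (4 ^ k))]
  · have h1 : ∀ l ∈ Finset.range (4 ^ k), ENNReal.ofReal (al (k, l)) ^ (2 : ℝ) =
        ENNReal.ofReal ((4 ^ k)⁻¹) := by
      intro l hl
      have hl' := Finset.mem_range.mp hl
      simp only [al, if_pos hl']
      rw [ENNReal.ofReal_rpow_of_nonneg (by positivity) (by norm_num), Real.rpow_two, inv_pow,
        ← pow_mul, mul_comm k 2, pow_mul]
      norm_num
    rw [Finset.sum_congr rfl h1, Finset.sum_const, Finset.card_range, nsmul_eq_mul,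
      ← ENNReal.ofReal_natCast, ← ENNReal.ofReal_mul (by positivity)]
    have : ((4 ^ k : ℕ) : ℝ) * (4 ^ k)⁻¹ = 1 := by
      push_cast
      exact mul_inv_cancel₀ (by positivity)
    rw [this]; simp
  · intro l hl
    have hl' : ¬ l < 4 ^ k := fun h => hl (Finset.mem_range.mpr h)
    simp [al, hl']

/-- coordinates on `ℓ_∞` -/
lemma coord_inf (x : ℕ → Linf 𝕜) (q : ℕ × ℕ) :
    ∑' j, ‖x j q‖ₑ ^ (2 : ℝ) ≤ weakN 𝕜 2 x ^ (2 : ℝ) := by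
  set φ : Linf 𝕜 → 𝕜 := fun z => z q with hφ
  have hn : UnitForm 𝕜 φ := ⟨fun _ _ => rfl, fun _ _ => rfl, fun z =>
    lp.norm_apply_le_norm (by simp) z q⟩
  have h1 : (∑' j, ‖φ (x j)‖ₑ ^ (2 : ℝ)) ^ (1 / 2 : ℝ) ≤ weakN 𝕜 2 x := by
    unfold weakN
    exact le_iSup₂ (f := fun (φ : Linf 𝕜 → 𝕜) (_ : UnitForm 𝕜 φ) =>
      (∑' j, ‖φ (x j)‖ₑ ^ (2 : ℝ)) ^ (1 / 2 : ℝ)) φ hn
  have h2 := ENNReal.rpow_le_rpow h1 (by norm_num : (0 : ℝ) ≤ 2)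
  rw [← ENNReal.rpow_mul] at h2
  norm_num at h2 ⊢
  exact h2

/-- coordinates on `ℓ_2` -/
lemma coord_two (y : ℕ → Ltwo 𝕜) (k : ℕ) :
    ∑' j, ‖inner 𝕜 (bas 𝕜 k) (y j)‖ₑ ^ (2 : ℝ) ≤ weakN 𝕜 2 y ^ (2 : ℝ) := by
  set φ : Ltwo 𝕜 → 𝕜 := fun z => inner 𝕜 (bas 𝕜 k) z with hφ
  have hn : UnitForm 𝕜 φ := ⟨fun _ _ => inner_add_right _ _ _, fun _ _ => inner_smul_right _ _ _,
    fun z => inner_bas_le 𝕜 k z⟩
  have h1 : (∑' j, ‖φ (y j)‖ₑ ^ (2 : ℝ)) ^ (1 / 2 : ℝ) ≤ weakN 𝕜 2 y := by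
    unfold weakN
    exact le_iSup₂ (f := fun (φ : Ltwo 𝕜 → 𝕜) (_ : UnitForm 𝕜 φ) =>
      (∑' j, ‖φ (y j)‖ₑ ^ (2 : ℝ)) ^ (1 / 2 : ℝ)) φ hn
  have h2 := ENNReal.rpow_le_rpow h1 (by norm_num : (0 : ℝ) ≤ 2)
  rw [← ENNReal.rpow_mul] at h2
  norm_num at h2 ⊢
  exact h2

lemma bessel (y : Ltwo 𝕜) : ∑' k, ‖inner 𝕜 (bas 𝕜 k) y‖ₑ ^ (2 : ℝ) ≤ ‖y‖ₑ ^ (2 : ℝ) := by
  refine ENNReal.tsum_le_of_sum_range_le fun n => ?_
  have h1 := (bas_orth 𝕜).sum_inner_products_le y (s := Finset.range n)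
  have h2 : ∀ k, ‖inner 𝕜 (bas 𝕜 k) y‖ₑ ^ (2 : ℝ) = ENNReal.ofReal (‖inner 𝕜 (bas 𝕜 k) y‖ ^ 2) := by
    intro k
    rw [← ofReal_norm, ENNReal.ofReal_rpow_of_nonneg (norm_nonneg _) (by norm_num), Real.rpow_two]
  simp only [h2]
  rw [← ENNReal.ofReal_sum_of_nonneg (fun k _ => by positivity), ← ofReal_norm,
    ENNReal.ofReal_rpow_of_nonneg (norm_nonneg _) (by norm_num), Real.rpow_two]
  exact ENNReal.ofReal_le_ofReal h1

lemma first : FirstSumming 𝕜 2 (T 𝕜) := by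
  refine ⟨1, fun x b _ => ?_⟩
  have h1 : ∑' j, ‖T 𝕜 (x j) b‖ₑ ^ (2 : ℝ) ≤ weakN 𝕜 2 x ^ (2 : ℝ) * ‖b‖ₑ ^ (2 : ℝ) := by
    calc ∑' j, ‖T 𝕜 (x j) b‖ₑ ^ (2 : ℝ)
        ≤ ∑' j, ∑' q, ‖T 𝕜 (x j) b q‖ₑ ^ (2 : ℝ) := by
          refine ENNReal.tsum_le_tsum fun j => ?_
          exact enorm_T_sq 𝕜 _ _ _ fun q =>
            ENNReal.le_tsum (f := fun q => ‖T 𝕜 (x j) b q‖ₑ ^ (2 : ℝ)) q
      _ = ∑' q, ∑' j, ‖T 𝕜 (x j) b q‖ₑ ^ (2 : ℝ) := ENNReal.tsum_comm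
      _ = ∑' q : ℕ × ℕ, (ENNReal.ofReal (al q) ^ (2 : ℝ) *
            ‖inner 𝕜 (bas 𝕜 q.1) b‖ₑ ^ (2 : ℝ)) * ∑' j, ‖x j q‖ₑ ^ (2 : ℝ) := by
          refine tsum_congr fun q => ?_
          rw [← ENNReal.tsum_mul_left]
          refine tsum_congr fun j => ?_
          rw [T_apply, enorm_mul, enorm_mul, enorm_al, ENNReal.mul_rpow_of_nonneg _ _ (by norm_num),
            ENNReal.mul_rpow_of_nonneg _ _ (by norm_num)]
      _ ≤ ∑' q : ℕ × ℕ, (ENNReal.ofReal (al q) ^ (2 : ℝ) *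
            ‖inner 𝕜 (bas 𝕜 q.1) b‖ₑ ^ (2 : ℝ)) * weakN 𝕜 2 x ^ (2 : ℝ) := by
          refine ENNReal.tsum_le_tsum fun q => ?_
          exact mul_le_mul_right (coord_inf 𝕜 x q) _
      _ = (∑' q : ℕ × ℕ, ENNReal.ofReal (al q) ^ (2 : ℝ) *
            ‖inner 𝕜 (bas 𝕜 q.1) b‖ₑ ^ (2 : ℝ)) * weakN 𝕜 2 x ^ (2 : ℝ) := ENNReal.tsum_mul_right
      _ = (∑' k, ‖inner 𝕜 (bas 𝕜 k) b‖ₑ ^ (2 : ℝ)) * weakN 𝕜 2 x ^ (2 : ℝ) := by
          congr 1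
          rw [ENNReal.tsum_prod']
          refine tsum_congr fun k => ?_
          show ∑' l, ENNReal.ofReal (al (k, l)) ^ (2 : ℝ) *
            ‖inner 𝕜 (bas 𝕜 k) b‖ₑ ^ (2 : ℝ) = _
          rw [ENNReal.tsum_mul_right, sum_al, one_mul]
      _ ≤ ‖b‖ₑ ^ (2 : ℝ) * weakN 𝕜 2 x ^ (2 : ℝ) := mul_le_mul_left (bessel 𝕜 b) _
      _ = _ := mul_comm _ _
  calc (∑' j, ‖T 𝕜 (x j) b‖ₑ ^ (2 : ℝ)) ^ (1 / 2 : ℝ)
      ≤ (weakN 𝕜 2 x ^ (2 : ℝ) * ‖b‖ₑ ^ (2 : ℝ)) ^ (1 / 2 : ℝ) :=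
        ENNReal.rpow_le_rpow h1 (by norm_num)
    _ = 1 * weakN 𝕜 2 x * ‖b‖ₑ := by
        rw [ENNReal.mul_rpow_of_nonneg _ _ (by norm_num), ← ENNReal.rpow_mul, ← ENNReal.rpow_mul]
        norm_num
    _ = _ := by norm_cast

lemma second : SecondSumming 𝕜 2 (T 𝕜) := by
  refine ⟨2, fun a y _ => ?_⟩
  have hpow : ∀ k : ℕ, ENNReal.ofReal ((2 ^ k)⁻¹) ^ (2 : ℝ) = (1 / 4 : ℝ≥0∞) ^ k := by
    intro k
    rw [ENNReal.ofReal_rpow_of_nonneg (by positivity) (by norm_num), Real.rpow_two, inv_pow,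
      ← pow_mul, mul_comm k 2, pow_mul, ← inv_pow]
    have : ((2 : ℝ) ^ 2)⁻¹ = 1 / 4 := by norm_num
    rw [this, ENNReal.ofReal_pow (by norm_num)]
    congr 1
    rw [ENNReal.ofReal_div_of_pos (by norm_num)]
    simp
  have hgeo : ∑' k : ℕ, (1 / 4 : ℝ≥0∞) ^ k ≤ 4 := by
    rw [ENNReal.tsum_geometric, ENNReal.inv_le_iff_inv_le]
    have h1 : (1 : ℝ≥0∞) / 4 + 1 / 4 ≤ 1 := by
      rw [← ENNReal.add_div, ENNReal.div_le_iff (by norm_num) (by norm_num)]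
      norm_num
    rw [← one_div]
    exact ENNReal.le_sub_of_add_le_left (by
      exact ne_of_lt (lt_of_le_of_lt (le_trans le_self_add h1) (by simp))) h1
  have h1 : ∑' j, ‖T 𝕜 a (y j)‖ₑ ^ (2 : ℝ) ≤ 4 * (weakN 𝕜 2 y ^ (2 : ℝ) * ‖a‖ₑ ^ (2 : ℝ)) := by
    calc ∑' j, ‖T 𝕜 a (y j)‖ₑ ^ (2 : ℝ)
        ≤ ∑' j, ∑' k : ℕ, (1 / 4 : ℝ≥0∞) ^ k *
            (‖inner 𝕜 (bas 𝕜 k) (y j)‖ₑ ^ (2 : ℝ) * ‖a‖ₑ ^ (2 : ℝ)) := by
          refine ENNReal.tsum_le_tsum fun j => ?_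
          refine enorm_T_sq 𝕜 _ _ _ fun q => ?_
          refine le_trans ?_ (ENNReal.le_tsum q.1)
          rw [T_apply, enorm_mul, enorm_mul, enorm_al, ENNReal.mul_rpow_of_nonneg _ _ (by norm_num),
            ENNReal.mul_rpow_of_nonneg _ _ (by norm_num), mul_assoc]
          gcongr
          · rw [← hpow]
            gcongr
            unfold al
            split_ifs
            · exact le_refl _
            · positivity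
          · rw [← ofReal_norm, ← ofReal_norm]
            exact ENNReal.ofReal_le_ofReal (lp.norm_apply_le_norm (by simp) a q)
      _ = ∑' k : ℕ, ∑' j, (1 / 4 : ℝ≥0∞) ^ k *
            (‖inner 𝕜 (bas 𝕜 k) (y j)‖ₑ ^ (2 : ℝ) * ‖a‖ₑ ^ (2 : ℝ)) := ENNReal.tsum_comm
      _ = ∑' k : ℕ, (1 / 4 : ℝ≥0∞) ^ k *
            ((∑' j, ‖inner 𝕜 (bas 𝕜 k) (y j)‖ₑ ^ (2 : ℝ)) * ‖a‖ₑ ^ (2 : ℝ)) := by
          refine tsum_congr fun k => ?_
          rw [ENNReal.tsum_mul_left, ENNReal.tsum_mul_right]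
      _ ≤ ∑' k : ℕ, (1 / 4 : ℝ≥0∞) ^ k * (weakN 𝕜 2 y ^ (2 : ℝ) * ‖a‖ₑ ^ (2 : ℝ)) := by
          refine ENNReal.tsum_le_tsum fun k => ?_
          exact mul_le_mul_right (mul_le_mul_left (coord_two 𝕜 y k) _) _
      _ = (∑' k : ℕ, (1 / 4 : ℝ≥0∞) ^ k) * (weakN 𝕜 2 y ^ (2 : ℝ) * ‖a‖ₑ ^ (2 : ℝ)) :=
          ENNReal.tsum_mul_right
      _ ≤ _ := mul_le_mul_left hgeo _
  calc (∑' j, ‖T 𝕜 a (y j)‖ₑ ^ (2 : ℝ)) ^ (1 / 2 : ℝ)
      ≤ (4 * (weakN 𝕜 2 y ^ (2 : ℝ) * ‖a‖ₑ ^ (2 : ℝ))) ^ (1 / 2 : ℝ) :=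
        ENNReal.rpow_le_rpow h1 (by norm_num)
    _ = 2 * weakN 𝕜 2 y * ‖a‖ₑ := by
        have h4 : (4 : ℝ≥0∞) = 2 ^ (2 : ℝ) := by norm_num
        rw [ENNReal.mul_rpow_of_nonneg _ _ (by norm_num), ENNReal.mul_rpow_of_nonneg _ _ (by norm_num),
          h4, ← ENNReal.rpow_mul, ← ENNReal.rpow_mul, ← ENNReal.rpow_mul]
        norm_num
        rw [mul_assoc]
    _ = _ := by norm_cast

/-! ### failure of strong multiple summability -/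

/-- signs making a sum large in a Hilbert space -/
lemma exists_signs {V : Type} [NormedAddCommGroup V] [InnerProductSpace 𝕜 V] {ι : Type}
    [DecidableEq ι] (s : Finset ι) (v : ι → V) :
    ∃ ε : ι → ℝ, (∀ i, ε i = 1 ∨ ε i = -1) ∧
      ∑ i ∈ s, ‖v i‖ ^ 2 ≤ ‖∑ i ∈ s, (ε i : 𝕜) • v i‖ ^ 2 := by
  induction s using Finset.induction_on with
  | empty => exact ⟨fun _ => 1, fun _ => Or.inl rfl, by simp⟩
  | insert a s ha ih =>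
    obtain ⟨ε, hε, hle⟩ := ih
    set w := ∑ i ∈ s, (ε i : 𝕜) • v i with hw
    have hp := parallelogram_law_with_norm 𝕜 w (v a)
    have hsum : ∀ t : ℝ, ∑ i ∈ s, ((Function.update ε a t i : ℝ) : 𝕜) • v i = w := by
      intro t
      refine Finset.sum_congr rfl fun i hi => ?_
      have : i ≠ a := fun h => ha (h ▸ hi)
      rw [Function.update_of_ne this]
    have hupd : ∀ t : ℝ, (t = 1 ∨ t = -1) → ∀ i, Function.update ε a t i = 1 ∨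
        Function.update ε a t i = -1 := by
      intro t ht i
      by_cases h : i = a
      · subst h; simpa using ht
      · rw [Function.update_of_ne h]; exact hε i
    rw [Finset.sum_insert ha]
    rcases le_total (‖w - v a‖ ^ 2) (‖w + v a‖ ^ 2) with h | h
    · refine ⟨Function.update ε a 1, hupd 1 (Or.inl rfl), ?_⟩
      rw [Finset.sum_insert ha, hsum, Function.update_self, RCLike.ofReal_one, one_smul, add_comm (v a)]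
      linarith
    · refine ⟨Function.update ε a (-1), hupd (-1) (Or.inr rfl), ?_⟩
      rw [Finset.sum_insert ha, hsum, Function.update_self, RCLike.ofReal_neg, RCLike.ofReal_one,
        neg_smul, one_smul, neg_add_eq_sub]
      linarith

/-- unit vectors of `ℓ_∞` -/
def ev (q : ℕ × ℕ) : Linf 𝕜 := lp.single ∞ q (1 : 𝕜)

lemma ev_apply (q r : ℕ × ℕ) : ev 𝕜 q r = if r = q then 1 else 0 := by
  unfold ev
  rw [lp.single_apply, Pi.single_apply]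

lemma norm_signed {M : ℕ} (c : Fin M → ℕ × ℕ) (hc : Function.Injective c) (ε : Fin M → ℝ)
    (hε : ∀ i, ε i = 1 ∨ ε i = -1) : ‖∑ i, (ε i : 𝕜) • ev 𝕜 (c i)‖ ≤ 1 := by
  refine lp.norm_le_of_forall_le (by norm_num) fun r => ?_
  have h1 : (∑ i, (ε i : 𝕜) • ev 𝕜 (c i) : Linf 𝕜) r =
      ∑ i, (ε i : 𝕜) * (if r = c i then 1 else 0) := by
    rw [lp.coeFn_sum, Finset.sum_apply]
    refine Finset.sum_congr rfl fun i _ => ?_
    rw [lp.coeFn_smul, Pi.smul_apply, ev_apply, smul_eq_mul]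
  rw [h1]
  by_cases h : ∃ i, r = c i
  · obtain ⟨i, hi⟩ := h
    rw [Finset.sum_eq_single i]
    · rw [if_pos hi, mul_one, RCLike.norm_ofReal]
      rcases hε i with h | h <;> simp [h]
    · intro j _ hj
      have : r ≠ c j := fun h => hj (hc (h.symm.trans hi))
      rw [if_neg this, mul_zero]
    · intro h; exact absurd (Finset.mem_univ _) h
  · push Not at h
    have : ∑ i, (ε i : 𝕜) * (if r = c i then 1 else 0) = 0 :=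
      Finset.sum_eq_zero fun i _ => by rw [if_neg (h i), mul_zero]
    rw [this]; simp

/-- the bound for scalar forms -/
lemma form_bound {M : ℕ} (c : Fin M → ℕ × ℕ) (hc : Function.Injective c)
    (φ : Linf 𝕜 → Ltwo 𝕜 → 𝕜) (hφ : Bilinear 𝕜 1 φ) :
    ∑ i, ∑ j : Fin M, ‖φ (ev 𝕜 (c i)) (bas 𝕜 j)‖ ^ 2 ≤ 1 := by
  classical
  set v : Fin M → EuclideanSpace 𝕜 (Fin M) := fun i =>
    WithLp.toLp 2 (fun j : Fin M => φ (ev 𝕜 (c i)) (bas 𝕜 j)) with hv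
  obtain ⟨ε, hε, hle⟩ := exists_signs 𝕜 Finset.univ v
  set x : Linf 𝕜 := ∑ i, (ε i : 𝕜) • ev 𝕜 (c i) with hx
  have hx1 : ‖x‖ ≤ 1 := norm_signed 𝕜 c hc ε hε
  have h1 : ∀ i, ‖v i‖ ^ 2 = ∑ j : Fin M, ‖φ (ev 𝕜 (c i)) (bas 𝕜 j)‖ ^ 2 := by
    intro i
    rw [EuclideanSpace.norm_sq_eq]
  have h2 : ‖∑ i, (ε i : 𝕜) • v i‖ ^ 2 = ∑ j : Fin M, ‖φ x (bas 𝕜 j)‖ ^ 2 := by
    rw [EuclideanSpace.norm_sq_eq]
    refine Finset.sum_congr rfl fun j _ => ?_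
    congr 2
    set L : Linf 𝕜 →ₗ[𝕜] 𝕜 :=
      { toFun := fun x => φ x (bas 𝕜 j)
        map_add' := fun x x' => hφ.add_left x x' _
        map_smul' := fun c x => hφ.smul_left c x _ } with hL
    have h7 : φ x (bas 𝕜 j) = L x := rfl
    rw [h7, hx, map_sum]
    simp only [map_smul]
    simp [hv, hL, RCLike.real_smul_eq_coe_mul]
  rw [h2] at hle
  simp only [h1] at hle
  refine hle.trans ?_
  -- Riesz representation and Bessel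
  set ψ : Ltwo 𝕜 →L[𝕜] 𝕜 := LinearMap.mkContinuous
      { toFun := fun y => φ x y
        map_add' := fun y y' => hφ.add_right x y y'
        map_smul' := fun c y => hφ.smul_right c x y } 1 (fun y => by
          refine (hφ.bound x y).trans ?_
          rw [one_mul]
          gcongr) with hψ
  set z := (InnerProductSpace.toDual 𝕜 (Ltwo 𝕜)).symm ψ with hz
  have h3 : ∀ y, φ x y = inner 𝕜 z y := by
    intro y
    have h8 := InnerProductSpace.toDual_symm_apply (𝕜 := 𝕜) (x := y) (y := ψ)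
    rw [hz, h8]
    rfl
  have h4 : ‖z‖ = ‖ψ‖ := by rw [hz]; exact LinearIsometryEquiv.norm_map _ _
  have h5 : ‖ψ‖ ≤ 1 := LinearMap.mkContinuous_norm_le _ (by norm_num) _
  have h6 := (bas_orth 𝕜).sum_inner_products_le z
    (s := Finset.range M)
  calc ∑ j : Fin M, ‖φ x (bas 𝕜 j)‖ ^ 2 = ∑ j ∈ Finset.range M, ‖inner 𝕜 (bas 𝕜 j) z‖ ^ 2 := by
        rw [Finset.sum_range]
        refine Finset.sum_congr rfl fun j _ => ?_
        rw [h3, norm_inner_symm]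
    _ ≤ ‖z‖ ^ 2 := h6
    _ ≤ 1 := by rw [h4]; exact pow_le_one₀ (norm_nonneg _) h5

lemma not_strong : ¬ StronglyMultiple 𝕜 2 (T 𝕜) := by
  rintro ⟨C, hC⟩
  obtain ⟨m, hm⟩ := exists_nat_gt ((C : ℝ) ^ 2)
  have hm0 : 0 < m := by
    have : (0 : ℝ) < m := lt_of_le_of_lt (by positivity) hm
    exact_mod_cast this
  set c : Fin (m * 4 ^ m) → ℕ × ℕ := fun j =>
    (((finProdFinEquiv.symm j).1 : ℕ), ((finProdFinEquiv.symm j).2 : ℕ)) with hcdef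
  have hc : Function.Injective c := by
    intro i j hij
    simp only [hcdef, Prod.mk.injEq] at hij
    have : finProdFinEquiv.symm i = finProdFinEquiv.symm j :=
      Prod.ext (Fin.ext hij.1) (Fin.ext hij.2)
    exact finProdFinEquiv.symm.injective this
  have h := hC (m * 4 ^ m) (fun i => ev 𝕜 (c i)) (fun j => bas 𝕜 j)
  -- right side
  have hR : (⨆ (φ : Linf 𝕜 → Ltwo 𝕜 → 𝕜) (_ : Bilinear 𝕜 1 φ),
      (∑ i, ∑ j : Fin (m * 4 ^ m), ‖φ (ev 𝕜 (c i)) (bas 𝕜 j)‖ₑ ^ (2 : ℝ)) ^ (1 / 2 : ℝ)) ≤ 1 := by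
    refine iSup₂_le fun φ hφ => ?_
    have h1 : ∑ i, ∑ j : Fin (m * 4 ^ m), ‖φ (ev 𝕜 (c i)) (bas 𝕜 j)‖ₑ ^ (2 : ℝ) ≤ 1 := by
      have h2 : ∀ i, ∀ j : Fin (m * 4 ^ m), ‖φ (ev 𝕜 (c i)) (bas 𝕜 j)‖ₑ ^ (2 : ℝ) =
          ENNReal.ofReal (‖φ (ev 𝕜 (c i)) (bas 𝕜 j)‖ ^ 2) := by
        intro i j
        rw [← ofReal_norm, ENNReal.ofReal_rpow_of_nonneg (norm_nonneg _) (by norm_num),
          Real.rpow_two]
      simp only [h2]
      simp only [← ENNReal.ofReal_sum_of_nonneg (fun (j : Fin (m * 4 ^ m)) (_ : j ∈ Finset.univ) =>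
        sq_nonneg (‖φ (ev 𝕜 (c _)) (bas 𝕜 j)‖))]
      rw [← ENNReal.ofReal_sum_of_nonneg (fun i _ => Finset.sum_nonneg fun j _ => sq_nonneg _),
        ← ENNReal.ofReal_one]
      exact ENNReal.ofReal_le_ofReal (form_bound 𝕜 c hc φ hφ)
    calc _ ≤ (1 : ℝ≥0∞) ^ (1 / 2 : ℝ) := ENNReal.rpow_le_rpow h1 (by norm_num)
      _ = 1 := ENNReal.one_rpow _
  -- left side
  have hL : (m : ℝ≥0∞) ≤ ∑ i, ∑ j : Fin (m * 4 ^ m),
      ‖T 𝕜 (ev 𝕜 (c i)) (bas 𝕜 j)‖ₑ ^ (2 : ℝ) := by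
    have h1 : ∀ i, ENNReal.ofReal (al (c i)) ^ (2 : ℝ) ≤ ∑ j : Fin (m * 4 ^ m),
        ‖T 𝕜 (ev 𝕜 (c i)) (bas 𝕜 j)‖ₑ ^ (2 : ℝ) := by
      intro i
      have hk : (c i).1 < m * 4 ^ m := by
        have h2 : (c i).1 < m := (finProdFinEquiv.symm i).1.isLt
        have h3 : 1 ≤ 4 ^ m := Nat.one_le_pow _ _ (by norm_num)
        nlinarith
      refine le_trans ?_ (Finset.single_le_sum (f := fun j : Fin (m * 4 ^ m) =>
        ‖T 𝕜 (ev 𝕜 (c i)) (bas 𝕜 j)‖ₑ ^ (2 : ℝ)) (fun _ _ => bot_le)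
        (Finset.mem_univ ⟨(c i).1, hk⟩))
      refine ENNReal.rpow_le_rpow ?_ (by norm_num)
      rw [← ofReal_norm]
      apply ENNReal.ofReal_le_ofReal
      have h4 := lp.norm_apply_le_norm (p := ∞) (by simp) (T 𝕜 (ev 𝕜 (c i)) (bas 𝕜 (c i).1)) (c i)
      rw [T_apply, ev_apply, if_pos rfl, mul_one, inner_self_eq_norm_sq_to_K,
        (bas_orth 𝕜).1] at h4
      simpa [abs_of_nonneg (al_nonneg _)] using h4
    refine le_trans (le_of_eq ?_) (Finset.sum_le_sum fun i _ => h1 i)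
    rw [← Equiv.sum_comp (finProdFinEquiv (m := m) (n := 4 ^ m)), Fintype.sum_prod_type]
    have h5 : ∀ k : Fin m, ∑ l : Fin (4 ^ m),
        ENNReal.ofReal (al (c (finProdFinEquiv (k, l)))) ^ (2 : ℝ) = 1 := by
      intro k
      rw [← sum_al (k : ℕ)]
      simp only [hcdef, Equiv.symm_apply_apply]
      rw [← Finset.sum_range (fun l => ENNReal.ofReal (al ((k : ℕ), l)) ^ (2 : ℝ)),
        tsum_eq_sum (s := Finset.range (4 ^ m))]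
      intro l hl
      have hl' : ¬ l < 4 ^ (k : ℕ) := by
        intro h
        exact hl (Finset.mem_range.mpr (lt_of_lt_of_le h
          (Nat.pow_le_pow_right (by norm_num) k.isLt.le)))
      simp [al, hl']
    rw [Finset.sum_congr rfl fun k _ => h5 k]
    simp
  have h7 : (m : ℝ≥0∞) ^ (1 / 2 : ℝ) ≤ C := by
    calc (m : ℝ≥0∞) ^ (1 / 2 : ℝ) ≤ _ := ENNReal.rpow_le_rpow hL (by norm_num)
      _ ≤ C * _ := h
      _ ≤ C * 1 := mul_le_mul_right hR _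
      _ = C := mul_one _
  have h8 := ENNReal.rpow_le_rpow h7 (by norm_num : (0 : ℝ) ≤ 2)
  rw [← ENNReal.rpow_mul] at h8
  norm_num at h8
  have h9 : ((m : NNReal) : ℝ≥0∞) ≤ ((C ^ 2 : NNReal) : ℝ≥0∞) := by
    push_cast
    exact h8
  have h10 : (m : NNReal) ≤ C ^ 2 := ENNReal.coe_le_coe.mp h9
  have h11 : (m : ℝ) ≤ (C : ℝ) ^ 2 := by exact_mod_cast h10
  linarith

/-- **Main result** (Q1 of MP_3dc8bf_an is disproved, with `n = 2`, `p = 2`, over both scalar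
fields): Banach spaces `E₁`, `E₂`, `F` and a bounded bilinear map `T : E₁ × E₂ → F` that is
`k`-absolutely `2`-summing for `k = 1, 2` but not strongly multiple `2`-summing. -/
theorem result (𝕜 : Type) [RCLike 𝕜] :
    ∃ (E₁ E₂ F : Type) (_ : NormedAddCommGroup E₁) (_ : NormedAddCommGroup E₂)
      (_ : NormedAddCommGroup F) (_ : NormedSpace 𝕜 E₁) (_ : NormedSpace 𝕜 E₂)
      (_ : NormedSpace 𝕜 F) (_ : CompleteSpace E₁) (_ : CompleteSpace E₂) (_ : CompleteSpace F)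
      (T : E₁ → E₂ → F),
      Bilinear 𝕜 1 T ∧ FirstSumming 𝕜 2 T ∧ SecondSumming 𝕜 2 T ∧ ¬ StronglyMultiple 𝕜 2 T :=
  ⟨Linf 𝕜, Ltwo 𝕜, Linf 𝕜, inferInstance, inferInstance, inferInstance, inferInstance,
    inferInstance, inferInstance, inferInstance, inferInstance, inferInstance,
    T 𝕜, T_bilinear 𝕜, first 𝕜, second 𝕜, not_strong 𝕜⟩

end

end Pool.Agent.Results.MP_3dc8bf_an.NotStronglyMultiple
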